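import Mathlib

open Finset Filter Topology

namespace Pool.Agent.Results.MP_642fbc_lc.No

/-- A word `u` of length `l` is an orphan of the range-2 rule `f` if no word of length `l + 1`
is mapped onto it. -/
def Orphan {S : Type} (f : S → S → S) {l : ℕ} (u : Fin l → S) : Prop :=
  ¬ ∃ v : Fin (l + 1) → S, ∀ i : Fin l, f (v i.castSucc) (v i.succ) = u i

/-- The proportion of words of length `l` that are orphans. -/
noncomputable def rho {S : Type} [Fintype S] (f : S → S → S) (l : ℕ) : ℝ :=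
  (Nat.card {u : Fin l → S // Orphan f u} : ℝ) / (Fintype.card S : ℝ) ^ l

def g (s : Bool) (x z : ℕ) : ℕ :=
  if s = true ∧ x = 0 then z else if z = x then x + 1 else if z = x + 1 then x else z

def F (t : ℕ) (p q : Bool × Fin (t + 1)) : Bool × Fin (t + 1) :=
  if (p.2 : ℕ) = t then (p.1, q.2) else if q.1 = p.1 then
    (false, ⟨min (g p.1 p.2 q.2) t, by omega⟩) else (true, q.2)

lemma g_le (s : Bool) {x z t : ℕ} (hx : x < t) (hz : z ≤ t) : g s x z ≤ t := by
  unfold g; split_ifs <;> omega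

lemma g_g (s : Bool) (x z : ℕ) : g s x (g s x z) = z := by
  cases s <;> simp only [g, Bool.false_eq_true, false_and, if_false, true_and] <;>
    split_ifs <;> omega

lemma g_step {x y z r : ℕ} (h : x = y ∨ (x ≤ r ∧ y ≤ r)) :
    g false x z = g true y z ∨ (g false x z ≤ r + 1 ∧ g true y z ≤ r + 1) := by
  simp only [g, Bool.false_eq_true, false_and, if_false, true_and]
  split_ifs <;> omega

lemma F_top {t : ℕ} (s s' : Bool) (x z : Fin (t + 1)) (hx : (x : ℕ) = t) :
    F t (s, x) (s', z) = (s, z) := by simp [F, hx]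

lemma F_cross {t : ℕ} (s : Bool) (x z : Fin (t + 1)) (hx : (x : ℕ) ≠ t) :
    F t (s, x) (!s, z) = (true, z) := by simp [F, hx]

lemma F_same {t : ℕ} (s : Bool) (x z : Fin (t + 1)) (hx : (x : ℕ) ≠ t) :
    ∃ w : Fin (t + 1), (w : ℕ) = g s x z ∧ F t (s, x) (s, w) = (false, z) := by
  have h1 : g s x z ≤ t := g_le s (by omega) (by omega)
  refine ⟨⟨g s x z, by omega⟩, rfl, ?_⟩
  simp only [F, hx, if_false, if_true, g_g, Prod.mk.injEq, true_and]
  ext
  have := z.2
  simp only
  omega

def Reach {t : ℕ} (u : ℕ → Bool × Fin (t + 1)) (k : ℕ) (q : Bool × Fin (t + 1)) : Prop :=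
  ∃ v : ℕ → Bool × Fin (t + 1), v k = q ∧ ∀ i < k, F t (v i) (v (i + 1)) = u i

lemma Reach.step {t : ℕ} {u : ℕ → Bool × Fin (t + 1)} {k : ℕ} {p q : Bool × Fin (t + 1)}
    (h : Reach u k p) (hq : F t p q = u k) : Reach u (k + 1) q := by
  obtain ⟨v, hv, hv'⟩ := h
  refine ⟨Function.update v (k + 1) q, by simp, fun i hi => ?_⟩
  rw [Function.update_of_ne (by omega)]
  by_cases hik : i = k
  · subst hik
    simp [hv, hq]
  · rw [Function.update_of_ne (by omega)]
    exact hv' i (by omega)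

lemma inv {t l : ℕ} (u : ℕ → Bool × Fin (t + 1))
    (hu : ∀ i, i + t ≤ l → ∃ j, i ≤ j ∧ j < i + t ∧ (u j).1 = true) :
    ∀ k ≤ l, ∃ (x y : Fin (t + 1)) (r : ℕ), Reach u k (false, x) ∧ Reach u k (true, y) ∧
      (x = y ∨ ((x : ℕ) ≤ r ∧ (y : ℕ) ≤ r)) ∧ r ≤ k ∧ ∀ j, k ≤ j + r → j < k → (u j).1 = false := by
  intro k
  induction k with
  | zero =>
    intro _
    exact ⟨0, 0, 0, ⟨fun _ => (false, 0), rfl, by simp⟩, ⟨fun _ => (true, 0), rfl, by simp⟩,
      Or.inl rfl, le_rfl, by omega⟩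
  | succ k ih =>
    intro hk
    obtain ⟨x, y, r, hx, hy, hxy, hr, hj⟩ := ih (by omega)
    have hrt : r < t := by
      by_contra h
      obtain ⟨j, h1, h2, h3⟩ := hu (k - t) (by omega)
      rw [hj j (by omega) (by omega)] at h3
      exact absurd h3 (by simp)
    rcases hk' : u k with ⟨s, z⟩
    by_cases hxt : (x : ℕ) = t
    · have hyt : (y : ℕ) = t := by
        rcases hxy with h | h
        · rw [← h]; exact hxt
        · omega
      refine ⟨z, z, 0, ?_, ?_, Or.inl rfl, by omega, by omega⟩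
      · cases s
        · exact hx.step (by rw [F_top _ _ _ _ hxt, hk'])
        · exact hy.step (by rw [F_top _ _ _ _ hyt, hk'])
      · cases s
        · exact hx.step (by rw [F_top _ _ _ _ hxt, hk'])
        · exact hy.step (by rw [F_top _ _ _ _ hyt, hk'])
    · have hyt : (y : ℕ) ≠ t := by
        rcases hxy with h | h
        · rw [← h]; exact hxt
        · omega
      cases s
      · obtain ⟨a, ha, ha'⟩ := F_same false x z hxt
        obtain ⟨b, hb, hb'⟩ := F_same true y z hyt
        refine ⟨a, b, r + 1, hx.step (by rw [ha', hk']), hy.step (by rw [hb', hk']), ?_,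
          by omega, ?_⟩
        · rw [Fin.ext_iff, ha, hb]
          rw [Fin.ext_iff] at hxy
          exact g_step hxy
        · intro j h1 h2
          by_cases hjk : j = k
          · rw [hjk, hk']
          · exact hj j (by omega) (by omega)
      · refine ⟨z, z, 0, hy.step ?_, hx.step ?_, Or.inl rfl, by omega, by omega⟩
        · rw [hk']; exact F_cross true y z hyt
        · rw [hk']; exact F_cross false x z hxt

lemma orphan_run {t l : ℕ} (u : Fin l → Bool × Fin (t + 1)) (hu : Orphan (F t) u) :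
    ∃ i, i + t ≤ l ∧ ∀ j : Fin l, i ≤ j → (j : ℕ) < i + t → (u j).1 = false := by
  by_contra h
  push Not at h
  apply hu
  let u' : ℕ → Bool × Fin (t + 1) := fun j => if hj : j < l then u ⟨j, hj⟩ else (false, 0)
  obtain ⟨x, -, -, ⟨v, -, hv⟩, -⟩ := inv (l := l) u' (fun i hi => by
    obtain ⟨j, h1, h2, h3⟩ := h i hi
    refine ⟨j, h1, h2, ?_⟩
    simp only [u', dif_pos j.2]
    simpa using h3) l le_rfl
  refine ⟨fun i => v i, fun i => ?_⟩
  have := hv i i.2
  simp only [u', dif_pos i.2] at this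
  simpa using this

lemma count_run {t l i : ℕ} (hi : i + t ≤ l) :
    2 ^ t * (univ.filter fun u : Fin l → Bool × Fin (t + 1) =>
      ∀ j : Fin l, i ≤ j → (j : ℕ) < i + t → (u j).1 = false).card = (2 * (t + 1)) ^ l := by
  classical
  let W : Finset (Fin l) := univ.filter fun j => i ≤ j ∧ (j : ℕ) < i + t
  have hW : W.card = t := by
    have : W.map Fin.valEmbedding = Finset.Ico i (i + t) := by
      ext j
      simp only [W, Finset.mem_map, mem_filter, mem_univ, true_and, Fin.valEmbedding_apply, mem_Ico]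
      constructor
      · rintro ⟨a, ha, rfl⟩; exact ha
      · intro hj; exact ⟨⟨j, by omega⟩, hj, rfl⟩
    have h2 := congrArg Finset.card this
    simpa using h2
  have he : (univ.filter fun u : Fin l → Bool × Fin (t + 1) =>
      ∀ j : Fin l, i ≤ j → (j : ℕ) < i + t → (u j).1 = false) =
      Fintype.piFinset fun j => if j ∈ W then ({false} : Finset Bool) ×ˢ univ else univ := by
    ext u
    simp only [mem_filter, mem_univ, true_and, Fintype.mem_piFinset, W]
    refine forall_congr' fun j => ?_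
    split_ifs with h
    · rw [Finset.mem_product]
      simp [h.1, h.2]
    · simp only [mem_univ, iff_true]
      intro h1 h2
      exact absurd ⟨h1, h2⟩ h
  rw [he, Fintype.card_piFinset]
  have h2 : 2 ^ t = ∏ j : Fin l, (if j ∈ W then 2 else 1) := by
    rw [Finset.prod_ite_mem, univ_inter, prod_const, hW]
  rw [h2, ← Finset.prod_mul_distrib]
  rw [Finset.prod_congr rfl (g := fun _ => 2 * (t + 1))]
  · simp
  · intro j _
    split_ifs <;> simp

lemma rho_le (t l : ℕ) (ht : 1 ≤ t) : rho (F t) l ≤ l / 2 ^ t := by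
  classical
  have h1 : Nat.card {u : Fin l → Bool × Fin (t + 1) // Orphan (F t) u} =
      (univ.filter fun u : Fin l → Bool × Fin (t + 1) => Orphan (F t) u).card := by
    rw [Nat.card_eq_fintype_card, Fintype.card_subtype]
  have h2 : (univ.filter fun u : Fin l → Bool × Fin (t + 1) => Orphan (F t) u) ⊆
      ((range l).filter fun i => i + t ≤ l).biUnion fun i => univ.filter fun u =>
        ∀ j : Fin l, i ≤ j → (j : ℕ) < i + t → (u j).1 = false := by
    intro u hu
    obtain ⟨i, hi, h⟩ := orphan_run u (mem_filter.1 hu).2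
    simp only [mem_biUnion, mem_filter, mem_range, mem_univ, true_and]
    exact ⟨i, ⟨by omega, hi⟩, h⟩
  have h3 := (card_le_card h2).trans card_biUnion_le
  have h4 : 2 ^ t * (univ.filter fun u : Fin l → Bool × Fin (t + 1) => Orphan (F t) u).card ≤
      l * (2 * (t + 1)) ^ l := by
    refine (Nat.mul_le_mul_left _ h3).trans ?_
    rw [Finset.mul_sum, Finset.sum_congr rfl (fun i hi => count_run (mem_filter.1 hi).2),
      sum_const, smul_eq_mul]
    exact Nat.mul_le_mul_right _ ((card_filter_le _ _).trans (by simp))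
  unfold rho
  rw [h1, div_le_div_iff₀ (by positivity) (by positivity)]
  have h5 : (Fintype.card (Bool × Fin (t + 1))) = 2 * (t + 1) := by simp
  rw [h5, mul_comm]
  exact_mod_cast h4

lemma F_cases {t : ℕ} (p q : Bool × Fin (t + 1)) :
    ((p.2 : ℕ) = t ∧ (F t p q).1 = p.1 ∧ ((F t p q).2 : ℕ) = q.2) ∨
    ((p.2 : ℕ) < t ∧ q.1 = p.1 ∧ (F t p q).1 = false ∧ ((F t p q).2 : ℕ) = g p.1 p.2 q.2) ∨
    ((p.2 : ℕ) < t ∧ q.1 ≠ p.1 ∧ (F t p q).1 = true ∧ ((F t p q).2 : ℕ) = q.2) := by
  have hp := p.2.2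
  have hq := q.2.2
  unfold F
  split_ifs with h1 h2
  · exact Or.inl ⟨h1, rfl, rfl⟩
  · exact Or.inr (Or.inl ⟨by omega, h2, rfl, min_eq_left (g_le _ (by omega) (by omega))⟩)
  · exact Or.inr (Or.inr ⟨by omega, h2, rfl, rfl⟩)

lemma g_inv {s : Bool} {x z i : ℕ} (h : g s x z = i) :
    (s = false → x = i → z = i + 1) ∧ (s = true → x ≤ i - 1 → z ≤ i) := by
  cases s <;> simp only [g, Bool.false_eq_true, false_and, if_false, true_and] at h <;>
    split_ifs at h <;> simp <;> omega

lemma has_orphan (t : ℕ) (ht : 1 ≤ t) :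
    ∃ u : Fin (t + 3) → Bool × Fin (t + 1), Orphan (F t) u := by
  refine ⟨fun i => (decide ((i : ℕ) = 0 ∨ t < i), ⟨min (i - 1) t, by omega⟩), ?_⟩
  rintro ⟨v, hv⟩
  let w : ℕ → Bool × Fin (t + 1) := fun j => if h : j < t + 4 then v ⟨j, h⟩ else (false, 0)
  have hw : ∀ j, j < t + 3 → (F t (w j) (w (j + 1))).1 = decide (j = 0 ∨ t < j) ∧
      ((F t (w j) (w (j + 1))).2 : ℕ) = min (j - 1) t := by
    intro j hj
    have := hv ⟨j, hj⟩
    simp only [w, dif_pos (show j < t + 4 by omega), dif_pos (show j + 1 < t + 4 by omega)]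
    simp only [Fin.castSucc_mk, Fin.succ_mk] at this
    rw [this]
    exact ⟨rfl, rfl⟩
  clear_value w
  have key : ∀ i ≤ t, ((w (i + 1)).1 = false ∧ ((w (i + 1)).2 : ℕ) = i) ∨
      ((w (i + 1)).1 = true ∧ ((w (i + 1)).2 : ℕ) ≤ i - 1) := by
    intro i
    induction i with
    | zero =>
      intro _
      obtain ⟨h1, h2⟩ := hw 0 (by omega)
      have h3 : ((w (0 + 1)).2 : ℕ) = 0 := by
        rcases F_cases (w 0) (w (0 + 1)) with h | h | h
        · omega
        · rw [h.2.2.1] at h1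
          simp at h1
        · omega
      cases (w (0 + 1)).1
      · exact Or.inl ⟨rfl, h3⟩
      · exact Or.inr ⟨rfl, by omega⟩
    | succ i ih =>
      intro hi
      have h := ih (by omega)
      obtain ⟨h1, h2⟩ := hw (i + 1) (by omega)
      have hd : decide (i + 1 = 0 ∨ t < i + 1) = false := by simp; omega
      rw [hd] at h1
      rcases F_cases (w (i + 1)) (w (i + 1 + 1)) with h' | h' | h'
      · omega
      · have h3 := g_inv (i := i) (h'.2.2.2.symm.trans (by omega))
        rcases h with h | h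
        · exact Or.inl ⟨h'.2.1.trans h.1, h3.1 h.1 h.2⟩
        · exact Or.inr ⟨h'.2.1.trans h.1, h3.2 h.1 h.2⟩
      · rw [h'.2.2.1] at h1
        simp at h1
  have h := key t le_rfl
  obtain ⟨h1, h1'⟩ := hw (t + 1) (by omega)
  obtain ⟨h2, -⟩ := hw (t + 1 + 1) (by omega)
  rw [show decide (t + 1 = 0 ∨ t < t + 1) = true by simp] at h1
  rw [show decide (t + 1 + 1 = 0 ∨ t < t + 1 + 1) = true by simp] at h2
  rcases F_cases (w (t + 1)) (w (t + 1 + 1)) with h' | h' | h'
  · rcases h with h | h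
    · rw [h'.2.1, h.1] at h1
      simp at h1
    · omega
  · rw [h'.2.2.1] at h1
    simp at h1
  · rcases h with h | h
    · omega
    · have h4 : (w (t + 1 + 1)).1 = false := by
        have := h'.2.1
        rw [h.1] at this
        simpa using this
      rcases F_cases (w (t + 1 + 1)) (w (t + 1 + 1 + 1)) with e | e | e
      · rw [e.2.1, h4] at h2
        simp at h2
      · omega
      · omega

lemma poly_bound (P : MvPolynomial (Fin 2) ℝ) : ∃ (C : ℝ) (D : ℕ), 0 ≤ C ∧
    ∀ (x : Fin 2 → ℝ) (T : ℝ), 1 ≤ T → (∀ i, |x i| ≤ T) →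
      |MvPolynomial.eval x P| ≤ C * T ^ D := by
  induction P using MvPolynomial.induction_on with
  | C a => exact ⟨|a|, 0, abs_nonneg a, fun x T _ _ => by simp⟩
  | add p q hp hq =>
    obtain ⟨C, D, hC, h⟩ := hp
    obtain ⟨C', D', hC', h'⟩ := hq
    refine ⟨C + C', D + D', by positivity, fun x T hT hx => ?_⟩
    have h1 : T ^ D ≤ T ^ (D + D') := pow_le_pow_right₀ hT (by omega)
    have h2 : T ^ D' ≤ T ^ (D + D') := pow_le_pow_right₀ hT (by omega)
    rw [map_add]
    have h3 := abs_add_le (MvPolynomial.eval x p) (MvPolynomial.eval x q)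
    nlinarith [h x T hT hx, h' x T hT hx, mul_le_mul_of_nonneg_left h1 hC,
      mul_le_mul_of_nonneg_left h2 hC']
  | mul_X p i hp =>
    obtain ⟨C, D, hC, h⟩ := hp
    refine ⟨C, D + 1, hC, fun x T hT hx => ?_⟩
    rw [map_mul, MvPolynomial.eval_X, abs_mul, pow_succ, ← mul_assoc]
    exact mul_le_mul (h x T hT hx) (hx i) (abs_nonneg _) (by positivity)

theorem result (P : MvPolynomial (Fin 2) ℝ) :
    ∃ (S : Type) (_ : Fintype S) (_ : Nonempty S) (f : S → S → S) (m : ℕ),
      IsLeast {l : ℕ | ∃ u : Fin l → S, Orphan f u} m ∧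
      ∀ l : ℕ, (l : ℝ) ≤ MvPolynomial.eval ![(Fintype.card S : ℝ), (m : ℝ)] P →
        rho f l ≤ 1 / 2 := by
  obtain ⟨C, D, hC, hP⟩ := poly_bound P
  have hlim := tendsto_pow_const_div_const_pow_of_one_lt D (show (1 : ℝ) < 2 by norm_num)
  have hpos : (0 : ℝ) < 1 / (8 * (C + 1) * 2 ^ D) := by positivity
  obtain ⟨s, hs, hs3⟩ := ((hlim.eventually (gt_mem_nhds hpos)).and (eventually_ge_atTop 3)).exists
  obtain ⟨t, rfl⟩ : ∃ t, s = t + 2 := ⟨s - 2, by omega⟩
  have ht : 1 ≤ t := by omega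
  have hne : {l : ℕ | ∃ u : Fin l → Bool × Fin (t + 1), Orphan (F t) u}.Nonempty :=
    ⟨t + 3, has_orphan t ht⟩
  have hm : sInf {l : ℕ | ∃ u : Fin l → Bool × Fin (t + 1), Orphan (F t) u} ≤ t + 3 :=
    Nat.sInf_le (has_orphan t ht)
  refine ⟨Bool × Fin (t + 1), inferInstance, inferInstance, F t, _,
    ⟨Nat.sInf_mem hne, fun _ h => Nat.sInf_le h⟩, fun l hl => ?_⟩
  set m := sInf {l : ℕ | ∃ u : Fin l → Bool × Fin (t + 1), Orphan (F t) u}
  have ht' : (1 : ℝ) ≤ t := by exact_mod_cast ht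
  have hb := hP ![(Fintype.card (Bool × Fin (t + 1)) : ℝ), (m : ℝ)] (2 * ((t + 2 : ℕ) : ℝ))
    (by push_cast; linarith) (by
      intro i
      fin_cases i
      · simp only [Fintype.card_prod, Fintype.card_bool, Fintype.card_fin]
        simp only [Fin.zero_eta, Matrix.cons_val_zero, Nat.abs_cast]
        push_cast
        linarith
      · have : (m : ℝ) ≤ t + 3 := by exact_mod_cast hm
        simp only [Fin.mk_one, Matrix.cons_val_one, Matrix.cons_val_zero, Nat.abs_cast]
        push_cast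
        linarith)
  have h1 : (l : ℝ) ≤ C * (2 ^ D * ((t + 2 : ℕ) : ℝ) ^ D) := by
    rw [← mul_pow]
    exact hl.trans ((le_abs_self _).trans hb)
  rw [div_lt_div_iff₀ (by positivity) (by positivity), pow_add] at hs
  refine (rho_le t l ht).trans ?_
  rw [div_le_div_iff₀ (by positivity) (by positivity)]
  have h2 : (0 : ℝ) ≤ 2 ^ D * ((t + 2 : ℕ) : ℝ) ^ D := by positivity
  nlinarith

end Pool.Agent.Results.MP_642fbc_lc.No
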